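import Pool.Agent.Lib.MP_02e8f2_lc.Main

namespace Pool.Agent.Results.MP_02e8f2_lc.InER

open Pool.Agent.Lib.MP_acf5a6_lc Pool.Agent.Lib.MP_02e8f2_lc

/-- Satisfiability of RCC8 networks with the predicates convex and connected reduces to the
existential theory of the reals by a polynomial-time many-one reduction. -/
theorem result : N793a5b8e.ManyOneReducible RCC ETR := rcc_le_etr

end Pool.Agent.Results.MP_02e8f2_lc.InER
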